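import Pool.Agent.PGX.Tail
import Pool.Agent.MS.Curve

/-!
PGX: the size of the closed walks (self-avoiding polygons of the hexagonal lattice), after the two-sided theorem for all
`p < 3 / 2 < q`.
-/

set_option autoImplicit false
open scoped Classical

open Finset Filter

namespace PGX

open MS

/-- bound of the mean of the radius of gyration of the closed walks from above -/
theorem rg_upper {q : ℝ} (hq : 0 < q) (hU : UpT q) : ∃ c : ℝ, 0 < c ∧ ∀ f : ℕ → Fin 3 → ℂ, Hex f → ∀ n : ℕ, 9 ≤ n →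
    ¬ Even n → EvP f n (Rg f) ≤ c⁻¹ * (n : ℝ) ^ q := by
  obtain ⟨c, hc, h⟩ := hU
  obtain ⟨c', hc', -, h'⟩ := transfer hc
  obtain ⟨D, hD, hDn⟩ := pow_exp_le 2 c' (by norm_num) hc'
  obtain ⟨K, hK⟩ : ∃ K : ℝ, K = 2 * c⁻¹ ^ 2 + 2 * (c'⁻¹ * D) := ⟨_, rfl⟩
  have hK0 : 0 < K := by rw [hK]; positivity
  refine ⟨K⁻¹, by positivity, fun f hf n hn ho => ?_⟩
  rw [inv_inv]
  have hnR : (1 : ℝ) ≤ n := by exact_mod_cast (by omega : 1 ≤ n)
  have hpos : (0 : ℝ) < (Pol f n).card := by exact_mod_cast card_Pol_pos hf hn ho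
  have h1 := h' f hf n hn ho _ _ (h f hf n (by omega))
  obtain ⟨B, hB⟩ : ∃ B : (Fin n → Fin 3) → Prop, B = fun s => ∃ j : Fin (n + 1), c⁻¹ * (n : ℝ) ^ (q / 2) < ‖pw f s j‖ :=
    ⟨_, rfl⟩
  have h1' : (((Pol f n).filter B).card : ℝ) ≤ c'⁻¹ * Real.exp (-(n : ℝ) ^ c') * ((Pol f n).card : ℝ) := by
    refine le_trans (le_of_eq ?_) h1
    congr 2
    ext s
    rw [mem_filter, mem_filter, hB]
  have hq2 : (n : ℝ) ^ (q / 2) * (n : ℝ) ^ (q / 2) = (n : ℝ) ^ q := by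
    rw [← Real.rpow_add (by linarith)]
    congr 1
    ring
  have hgood : ∀ s : Fin n → Fin 3, ¬ B s → Rg f s ≤ 2 * (c⁻¹ ^ 2 * (n : ℝ) ^ q) := by
    intro s hs
    rw [hB] at hs
    push Not at hs
    refine (Rg_le f s).trans (mul_le_mul_of_nonneg_left ?_ (by norm_num))
    unfold Mx
    refine sup'_le _ _ fun j _ => ?_
    calc ‖pw f s j‖ ^ 2 ≤ (c⁻¹ * (n : ℝ) ^ (q / 2)) ^ 2 := pow_le_pow_left₀ (norm_nonneg _) (hs j) 2
      _ = _ := by rw [← hq2]; ring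
  have hall : ∀ s : Fin n → Fin 3, Rg f s ≤ 2 * ((n : ℝ) + 1) ^ (2 : ℝ) := by
    intro s
    refine (Rg_le f s).trans (mul_le_mul_of_nonneg_left ?_ (by norm_num))
    unfold Mx
    refine sup'_le _ _ fun j _ => ?_
    have h2 := steps_le hf s 0 (j : ℕ) (Nat.zero_le _)
    rw [pw_zero, sub_zero] at h2
    have h3 : ((j : ℕ) : ℝ) ≤ n := by
      have := j.2
      exact_mod_cast (by omega : (j : ℕ) ≤ n)
    rw [Real.rpow_two]
    refine pow_le_pow_left₀ (norm_nonneg _) ?_ 2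
    push_cast at h2
    linarith
  unfold EvP
  rw [div_le_iff₀ hpos]
  have e1 : ∑ s ∈ Pol f n, Rg f s = ∑ s ∈ (Pol f n).filter B, Rg f s + ∑ s ∈ (Pol f n).filter (fun s => ¬ B s), Rg f s :=
    (sum_filter_add_sum_filter_not _ _ _).symm
  have e2 : ∑ s ∈ (Pol f n).filter B, Rg f s ≤ (((Pol f n).filter B).card : ℝ) * (2 * ((n : ℝ) + 1) ^ (2 : ℝ)) := by
    refine (sum_le_sum fun s _ => hall s).trans ?_
    rw [sum_const, nsmul_eq_mul]
  have e3 : ∑ s ∈ (Pol f n).filter (fun s => ¬ B s), Rg f s ≤ ((Pol f n).card : ℝ) * (2 * (c⁻¹ ^ 2 * (n : ℝ) ^ q)) := by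
    refine (sum_le_sum fun s hs => hgood s (mem_filter.1 hs).2).trans ?_
    rw [sum_const, nsmul_eq_mul]
    refine mul_le_mul_of_nonneg_right ?_ (by positivity)
    exact Nat.cast_le.2 (card_filter_le _ _)
  have e4 : (((Pol f n).filter B).card : ℝ) * (2 * ((n : ℝ) + 1) ^ (2 : ℝ)) ≤ ((Pol f n).card : ℝ) * (2 * (c'⁻¹ * D)) := by
    calc (((Pol f n).filter B).card : ℝ) * (2 * ((n : ℝ) + 1) ^ (2 : ℝ)) ≤
        (c'⁻¹ * Real.exp (-(n : ℝ) ^ c') * ((Pol f n).card : ℝ)) * (2 * ((n : ℝ) + 1) ^ (2 : ℝ)) :=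
          mul_le_mul_of_nonneg_right h1' (by positivity)
      _ = ((Pol f n).card : ℝ) * (2 * (c'⁻¹ * (((n : ℝ) + 1) ^ (2 : ℝ) * Real.exp (-(n : ℝ) ^ c')))) := by ring
      _ ≤ ((Pol f n).card : ℝ) * (2 * (c'⁻¹ * D)) := by
        have h5 : ((n : ℝ) + 1) ^ (2 : ℝ) * Real.exp (-(n : ℝ) ^ c') ≤ D := by
          refine (hDn n (by omega)).trans ?_
          have : Real.exp (-(n : ℝ) ^ (c' / 2)) ≤ 1 := by
            rw [Real.exp_le_one_iff]
            have := Real.rpow_nonneg (Nat.cast_nonneg n : (0 : ℝ) ≤ n) (c' / 2)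
            linarith
          exact mul_le_of_le_one_right hD.le this
        gcongr
  have hnq : (1 : ℝ) ≤ (n : ℝ) ^ q := Real.one_le_rpow hnR hq.le
  rw [e1]
  calc _ ≤ ((Pol f n).card : ℝ) * (2 * (c'⁻¹ * D)) + ((Pol f n).card : ℝ) * (2 * (c⁻¹ ^ 2 * (n : ℝ) ^ q)) :=
        add_le_add (e2.trans e4) e3
    _ ≤ ((Pol f n).card : ℝ) * (2 * (c'⁻¹ * D) * (n : ℝ) ^ q) + ((Pol f n).card : ℝ) * (2 * (c⁻¹ ^ 2 * (n : ℝ) ^ q)) := by
      refine add_le_add_left (mul_le_mul_of_nonneg_left ?_ hpos.le) _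
      exact le_mul_of_one_le_right (by positivity) hnq
    _ = K * (n : ℝ) ^ q * ((Pol f n).card : ℝ) := by rw [hK]; ring

/-- **the closed walks, general form** -/
theorem main_reg {p q δ : ℝ} (hp : 0 < p) (hpq : p ≤ q) (hq : q ≤ 2) (hδ : 0 < δ)
    (h : TwoSided p q) : ∃ c : ℝ, 0 < c ∧ ∀ f : ℕ → Fin 3 → ℂ, Hex f → ∀ n : ℕ, 9 ≤ n → ¬ Even n →
      c * Real.exp (-(n : ℝ) ^ δ) * ((SW f n).card : ℝ) ≤ (Pol f n).card ∧
      Bd c n (p + p / q - 1) q (EvP f n (Rg f)) ∧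
      (((Pol f n).filter (fun s => ¬ Reg f (p / 2) (q / 2) c δ s)).card : ℝ) ≤
        c⁻¹ * Real.exp (-(n : ℝ) ^ c) * ((Pol f n).card : ℝ) := by
  obtain ⟨hE, hL, hU⟩ := inputs h
  have hq0 : 0 < q := by linarith
  -- the number
  obtain ⟨C, hC, h0⟩ := pol_lower δ hδ
  -- from below
  obtain ⟨c₁, hc₁, h1⟩ := size_lower hp hpq hq hL hU
  obtain ⟨c₁', hc₁', hcc1, t1⟩ := transfer hc₁
  obtain ⟨c₂, hc₂, h2⟩ := mean_lower hc₁'
  -- from above
  obtain ⟨c₃, hc₃, h3⟩ := rg_upper hq0 hU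
  -- all scales
  obtain ⟨c₄, hc₄, -, h4⟩ := MS.main_reg hp hpq hq hδ h
  obtain ⟨c₅, hc₅, hc5, t4⟩ := transfer hc₄
  obtain ⟨c, hcdef⟩ : ∃ c : ℝ, c = min (min C⁻¹ c₂) (min c₃ c₅) := ⟨_, rfl⟩
  have hc : 0 < c := by rw [hcdef]; positivity
  have i1 : c ≤ C⁻¹ := by rw [hcdef]; exact (min_le_left _ _).trans (min_le_left _ _)
  have i2 : c ≤ c₂ := by rw [hcdef]; exact (min_le_left _ _).trans (min_le_right _ _)
  have i3 : c ≤ c₃ := by rw [hcdef]; exact (min_le_right _ _).trans (min_le_left _ _)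
  have i5 : c ≤ c₅ := by rw [hcdef]; exact (min_le_right _ _).trans (min_le_right _ _)
  have i4 : c ≤ c₄ := i5.trans hc5
  refine ⟨c, hc, fun f hf n hn ho => ⟨?_, ⟨?_, ?_⟩, ?_⟩⟩
  · have a := h0 f hf n hn ho
    have e1 : Real.exp (-(n : ℝ) ^ δ) * Real.exp ((n : ℝ) ^ δ) = 1 := by
      rw [← Real.exp_add, neg_add_cancel, Real.exp_zero]
    calc c * Real.exp (-(n : ℝ) ^ δ) * ((SW f n).card : ℝ) ≤
        C⁻¹ * Real.exp (-(n : ℝ) ^ δ) * (C * Real.exp ((n : ℝ) ^ δ) * (Pol f n).card) := by gcongr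
      _ = (C⁻¹ * C) * (Real.exp (-(n : ℝ) ^ δ) * Real.exp ((n : ℝ) ^ δ)) * (Pol f n).card := by ring
      _ = _ := by rw [e1, inv_mul_cancel₀ hC.ne', one_mul, one_mul]
  · have hnR : (1 : ℝ) ≤ n := by exact_mod_cast (by omega : 1 ≤ n)
    have a := (h1 f hf n (by omega)).1
    have a2 := t1 f hf n hn ho _ _ a
    refine (mul_le_mul_of_nonneg_right i2 (by positivity)).trans ?_
    refine h2 f hf n hn ho (Rg f) _ (by positivity) (Rg_nonneg f) (Rg_ge_small hf (by omega)) ?_ ?_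
    · have : p / q ≤ 1 := by rw [div_le_one hq0]; exact hpq
      calc (n : ℝ) ^ (p + p / q - 1) ≤ (n : ℝ) ^ (2 : ℝ) := Real.rpow_le_rpow_of_exponent_le hnR (by linarith)
        _ = _ := Real.rpow_two _
    · refine le_trans ?_ a2
      refine Nat.cast_le.2 (card_le_card ?_)
      intro s hs
      rw [mem_filter] at hs ⊢
      refine ⟨hs.1, fun hg => hs.2 (le_trans ?_ hg.1)⟩
      exact mul_le_mul_of_nonneg_right hcc1 (by positivity)
  · refine (h3 f hf n hn ho).trans ?_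
    exact mul_le_mul_of_nonneg_right (inv_anti₀ hc i3) (by positivity)
  · have hnR : (1 : ℝ) ≤ n := by exact_mod_cast (by omega : 1 ≤ n)
    have a := (h4 f hf n (by omega)).2.2.2.2
    have a2 := t4 f hf n hn ho _ _ a
    have a3 : (((Pol f n).filter (fun s => ¬ Reg f (p / 2) (q / 2) c δ s)).card : ℝ) ≤
        (((Pol f n).filter (fun s => ¬ Reg f (p / 2) (q / 2) c₄ δ s)).card : ℝ) := by
      refine Nat.cast_le.2 (card_le_card ?_)
      intro s hs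
      rw [mem_filter] at hs ⊢
      refine ⟨hs.1, fun hg => hs.2 ?_⟩
      intro i j hij hj hd
      obtain ⟨⟨k, k1, k2, k3⟩, k4⟩ := hg i j hij hj hd
      have hji : (0 : ℝ) ≤ (j : ℝ) - i := by
        have : (i : ℝ) ≤ j := by exact_mod_cast hij.le
        linarith
      refine ⟨⟨k, k1, k2, le_trans ?_ k3⟩, fun k k1 k2 => (k4 k k1 k2).trans ?_⟩
      · exact mul_le_mul_of_nonneg_right i4 (Real.rpow_nonneg hji _)
      · exact mul_le_mul_of_nonneg_right (inv_anti₀ hc i4) (Real.rpow_nonneg hji _)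
    refine a3.trans (a2.trans ?_)
    have b1 : c₅⁻¹ ≤ c⁻¹ := inv_anti₀ hc i5
    have b2 : Real.exp (-(n : ℝ) ^ c₅) ≤ Real.exp (-(n : ℝ) ^ c) := by
      rw [Real.exp_le_exp, neg_le_neg_iff]
      exact Real.rpow_le_rpow_of_exponent_le hnR i5
    gcongr

/-- **the closed walks** -/
theorem final (h : ∀ p q : ℝ, p < 3 / 2 → 3 / 2 < q → TwoSided p q) (ε : ℝ) (hε : 0 < ε) :
    ∃ c : ℝ, 0 < c ∧ ∀ f : ℕ → Fin 3 → ℂ, Hex f → ∀ n : ℕ, 9 ≤ n → ¬ Even n →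
      c * Real.exp (-(n : ℝ) ^ ε) * ((SW f n).card : ℝ) ≤ (Pol f n).card ∧
      Bd c n (3 / 2 - ε) (3 / 2 + ε) (EvP f n (Rg f)) ∧
      (((Pol f n).filter (fun s => ¬ Reg f (3 / 4 - ε) (3 / 4 + ε) c ε s)).card : ℝ) ≤
        c⁻¹ * Real.exp (-(n : ℝ) ^ c) * ((Pol f n).card : ℝ) := by
  obtain ⟨η, hη⟩ : ∃ η : ℝ, η = min (ε / 5) (1 / 8) := ⟨_, rfl⟩
  have hη0 : 0 < η := by rw [hη]; exact lt_min (by positivity) (by norm_num)
  have hη1 : η ≤ ε / 5 := by rw [hη]; exact min_le_left _ _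
  have hη2 : η ≤ 1 / 8 := by rw [hη]; exact min_le_right _ _
  obtain ⟨c, hc, h1⟩ := PGX.main_reg (p := 3 / 2 - 2 * η) (q := 3 / 2 + 2 * η) (δ := ε)
    (by linarith) (by linarith) (by linarith) hε (h _ _ (by linarith) (by linarith))
  have hq0 : (0 : ℝ) < 3 / 2 + 2 * η := by linarith
  have hpq : 1 - 8 / 3 * η ≤ (3 / 2 - 2 * η) / (3 / 2 + 2 * η) := by
    rw [le_div_iff₀ hq0]
    nlinarith
  refine ⟨c, hc, fun f hf n hn ho => ?_⟩
  obtain ⟨a1, a2, a3⟩ := h1 f hf n hn ho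
  refine ⟨a1, a2.mono_exp hc (by omega) (by linarith) (by linarith), le_trans ?_ a3⟩
  refine Nat.cast_le.2 (card_le_card ?_)
  intro s hs
  rw [mem_filter] at hs ⊢
  exact ⟨hs.1, fun hg => hs.2 (hg.mono_exp hc (by linarith) (by linarith) le_rfl)⟩

end PGX
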