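import Pool.Agent.PGX.Pair
import Pool.Agent.Lib.SAW.HW.Inst

/-!
PGX: for every `ε > 0` the closed walks with `n` steps, `n` odd and large, are at least `exp (- n ^ ε)` times all the
self-avoiding walks with `n` steps (hexagonal lattice).
-/

set_option autoImplicit false

open Finset Filter

namespace PGX

open SawNu Pool.Agent.SawBr38 Pool.Agent.Lib.SAW.HW

/-- all the steps -/
def S0 : Finset Pt := {(-2, 0), (1, -1), (1, 1), (2, 0), (-1, 1), (-1, -1)}

lemma tw_S0 {b : Bool} {l : List Pt} (h : TW hexL.S b l) : ∀ s ∈ l, s ∈ S0 := by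
  induction l generalizing b with
  | nil => intro s hs; cases hs
  | cons a l ih =>
    obtain ⟨h1, h2⟩ := h
    intro s hs
    rcases List.mem_cons.1 hs with rfl | hs
    · revert h1
      cases b
      · simp only [hexL, cond_false, Finset.mem_insert, Finset.mem_singleton]
        rintro (rfl | rfl | rfl) <;> decide
      · simp only [hexL, cond_true, Finset.mem_insert, Finset.mem_singleton]
        rintro (rfl | rfl | rfl) <;> decide
    · exact ih h2 s hs

lemma S0_bd : ∀ s ∈ S0, |s.1| ≤ 2 ∧ |s.2| ≤ 2 := by decide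

/-- a pair of end pieces with the same end point -/
structure Ends (p q : List Pt) : Prop where
  sum : p.sum = q.sum
  hp : BW p
  hq : BW q
  tp : TW hexL.S false p
  tq : TW hexL.S false q
  ep : Even p.length
  eq : Even q.length
  bp : ∀ z : Pt, 0 ≤ z.2 → ∀ i ≤ p.length, phi (z + p.sum) (z + ps p i) ≤ max 0 (phi (z + p.sum) z)
  bq : ∀ z : Pt, 0 ≤ z.2 → ∀ i ≤ q.length, phi (z + q.sum) (z + ps q i) ≤ max 0 (phi (z + q.sum) z)

lemma bw_nil : BW [] := ⟨SA.nil, fun i h1 h2 => by simp at h2; omega⟩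

lemma ends_nil : Ends [] [] where
  sum := rfl
  hp := bw_nil
  hq := bw_nil
  tp := trivial
  tq := trivial
  ep := by simp
  eq := by simp
  bp := by
    intro z _ i hi
    simp only [List.length_nil, Nat.le_zero] at hi
    subst hi
    simp
  bq := by
    intro z _ i hi
    simp only [List.length_nil, Nat.le_zero] at hi
    subst hi
    simp

/-- end piece with four steps -/
def sA : List Pt := [(-1, 1), (1, 1), (-1, 1), (1, 1)]

/-- end piece with six steps -/
def sB : List Pt := [(-1, 1), (-2, 0), (-1, 1), (1, 1), (2, 0), (1, 1)]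

lemma psA : ps sA 0 = (0, 0) ∧ ps sA 1 = (-1, 1) ∧ ps sA 2 = (0, 2) ∧ ps sA 3 = (-1, 3) ∧ ps sA 4 = (0, 4) := by
  decide

lemma psB : ps sB 0 = (0, 0) ∧ ps sB 1 = (-1, 1) ∧ ps sB 2 = (-3, 1) ∧ ps sB 3 = (-4, 2) ∧ ps sB 4 = (-3, 3) ∧
    ps sB 5 = (-1, 3) ∧ ps sB 6 = (0, 4) := by
  decide

lemma lenA : sA.length = 4 := rfl
lemma lenB : sB.length = 6 := rfl

lemma bwA : BW sA := by
  obtain ⟨a0, a1, a2, a3, a4⟩ := psA
  refine ⟨?_, ?_⟩
  · intro i j hij hj
    rw [lenA] at hj
    interval_cases j <;> interval_cases i <;> simp only [a0, a1, a2, a3, a4] <;> decide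
  · intro i h1 h2
    rw [lenA] at h2 ⊢
    interval_cases i <;> simp only [a1, a2, a3, a4] <;> decide

lemma bwB : BW sB := by
  obtain ⟨a0, a1, a2, a3, a4, a5, a6⟩ := psB
  refine ⟨?_, ?_⟩
  · intro i j hij hj
    rw [lenB] at hj
    interval_cases j <;> interval_cases i <;> simp only [a0, a1, a2, a3, a4, a5, a6] <;> decide
  · intro i h1 h2
    rw [lenB] at h2 ⊢
    interval_cases i <;> simp only [a1, a2, a3, a4, a5, a6] <;> decide

lemma ends_AB : Ends sA sB where
  sum := by decide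
  hp := bwA
  hq := bwB
  tp := by
    simp [sA, TW, hexL]
  tq := by
    simp [sB, TW, hexL]
  ep := ⟨2, rfl⟩
  eq := ⟨3, rfl⟩
  bp := by
    rintro ⟨x, y⟩ hz i hi
    obtain ⟨a0, a1, a2, a3, a4⟩ := psA
    have e : sA.sum = (0, 4) := by decide
    rw [lenA] at hi
    rw [e]
    simp only at hz
    rw [le_max_iff]
    interval_cases i <;> simp only [a0, a1, a2, a3, a4, phi, Prod.mk_add_mk]
    all_goals
      rcases le_total 0 x with h | h
      · right; nlinarith
      · left; nlinarith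
  bq := by
    rintro ⟨x, y⟩ hz i hi
    obtain ⟨a0, a1, a2, a3, a4, a5, a6⟩ := psB
    have e : sB.sum = (0, 4) := by decide
    rw [lenB] at hi
    rw [e]
    simp only at hz
    rw [le_max_iff]
    interval_cases i <;> simp only [a0, a1, a2, a3, a4, a5, a6, phi, Prod.mk_add_mk]
    all_goals
      rcases le_total 0 x with h | h
      · right; nlinarith
      · left; nlinarith

lemma bw_append {w s : List Pt} (hw : BW w) (hs : BW s) (h0 : 0 < w.length) : BW (w ++ s) := by
  obtain ⟨w1, w2⟩ := hw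
  obtain ⟨s1, s2⟩ := hs
  have hwl : ∀ i, i ≤ w.length → 0 ≤ (ps w i).2 ∧ (ps w i).2 ≤ w.sum.2 := by
    intro i hi
    rw [← ps_length]
    rcases Nat.eq_zero_or_pos i with h | h
    · subst h
      rw [ps_zero]
      have := (w2 _ h0 le_rfl).1
      exact ⟨le_refl _, by simpa using this.le⟩
    · exact ⟨(w2 i h hi).1.le, (w2 i h hi).2⟩
  have hsum : 0 ≤ (ps s s.length).2 := by
    rcases Nat.eq_zero_or_pos s.length with h | h
    · rw [h, ps_zero]
      simp
    · exact ((s2 _ h le_rfl).1).le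
  refine ⟨SA.append_of_wdn w1 s1 (fun i hi => (hwl i hi).2) (fun i h1 h2 => (s2 i h1 h2).1), ?_⟩
  intro i h1 h2
  have e : ps (w ++ s) (w ++ s).length = w.sum + ps s s.length := by
    rw [List.length_append, ps_append_right]
  rw [e, Prod.snd_add]
  rcases Nat.le_total i w.length with h | h
  · rw [ps_append_left h]
    have a1 := (w2 i h1 h).1
    have a2 := (hwl i h).2
    exact ⟨a1, by omega⟩
  · obtain ⟨k, rfl⟩ : ∃ k, i = w.length + k := ⟨i - w.length, by omega⟩
    rw [ps_append_right, Prod.snd_add]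
    have a1 : 0 < w.sum.2 := by
      have := (w2 _ h0 le_rfl).1
      rwa [ps_length] at this
    rw [List.length_append] at h2
    rcases Nat.eq_zero_or_pos k with hk | hk
    · subst hk
      rw [ps_zero]
      constructor
      · simpa using a1
      · simpa using hsum
    · have := s2 k hk (by omega)
      exact ⟨by omega, by omega⟩

lemma tw_append_even {w s : List Pt} (hw : TW hexL.S false w) (hs : TW hexL.S false s) (he : Even w.length) :
    TW hexL.S false (w ++ s) := by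
  rw [TW_append]
  refine ⟨hw, ?_⟩
  have : xor false (par w) = false := by
    unfold par
    obtain ⟨k, hk⟩ := he
    rw [hk, Nat.bodd_add, Bool.xor_self, Bool.false_xor]
  rw [this]
  exact hs

lemma tm_ends {p q : List Pt} (h : Ends p q) {w : List Pt} (hw : BW w) : tm (w ++ p) = tm (w ++ q) := by
  have hz : 0 ≤ w.sum.2 := by
    rcases Nat.eq_zero_or_pos w.length with h0 | h0
    · rw [← ps_length, h0, ps_zero]
      simp
    · have := (hw.2 _ h0 le_rfl).1
      rw [ps_length] at this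
      exact this.le
  rw [tm_append, tm_append]
  · rw [List.sum_append, List.sum_append, h.sum]
  · intro i hi
    rw [List.sum_append]
    exact h.bq w.sum hz i hi
  · intro i hi
    rw [List.sum_append]
    exact h.bp w.sum hz i hi

/-- the key of a bridge: end point and type of the extreme vertex -/
noncomputable def key (p w : List Pt) : Pt × Bool := (w.sum, (tm (w ++ p)).bodd)

/-- pairs of bridges with the same key -/
noncomputable def PP (p : List Pt) (m : ℕ) : Finset (List Pt × List Pt) :=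
  (Bs hexL m ×ˢ Bs hexL m).filter (fun x => key p x.1 = key p x.2)

lemma sq_le_PP (p : List Pt) (m : ℕ) : ((sysL hexL).b m) ^ 2 ≤ (2 * (4 * m + 1) ^ 2) * (PP p m).card := by
  have hM : Mirrored hexL := mirrored_hex
  rw [← card_image_brSet]
  show (Bs hexL m).card ^ 2 ≤ _
  set Z := (Bs hexL m).image (key p) with hZ
  have h1 : (Bs hexL m).card = ∑ z ∈ Z, ((Bs hexL m).filter (fun w => key p w = z)).card :=
    card_eq_sum_card_image _ _
  have h2 : (PP p m).card = ∑ z ∈ Z, ((Bs hexL m).filter (fun w => key p w = z)).card ^ 2 := by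
    have : ∀ x ∈ PP p m, key p x.1 ∈ Z := by
      intro x hx
      rw [PP, mem_filter, mem_product] at hx
      exact mem_image_of_mem _ hx.1.1
    rw [card_eq_sum_card_fiberwise this]
    refine Finset.sum_congr rfl fun z _ => ?_
    rw [sq, ← card_product]
    congr 1
    ext x
    simp only [PP, mem_filter, mem_product]
    constructor
    · rintro ⟨⟨⟨a1, a2⟩, a3⟩, a4⟩
      exact ⟨⟨a1, a4⟩, a2, by rw [← a3]; exact a4⟩
    · rintro ⟨⟨a1, a2⟩, a3, a4⟩
      exact ⟨⟨⟨a1, a3⟩, by rw [a2, a4]⟩, a2⟩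
  have h3 : Z.card ≤ 2 * (4 * m + 1) ^ 2 := by
    have hsub : Z ⊆ ((Finset.Icc (-(2 * m : ℤ)) (2 * m)) ×ˢ (Finset.Icc (-(2 * m : ℤ)) (2 * m))) ×ˢ
        (Finset.univ : Finset Bool) := by
      intro z hz
      rw [hZ, mem_image] at hz
      obtain ⟨w, hw, rfl⟩ := hz
      rw [mem_Bs hM] at hw
      obtain ⟨a1, a2, _⟩ := hw
      have := sum_bound S0_bd (tw_S0 a2)
      rw [a1] at this
      unfold key
      rw [mem_product, mem_product, mem_Icc, mem_Icc]
      exact ⟨⟨abs_le.1 this.1, abs_le.1 this.2⟩, mem_univ _⟩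
    refine (card_le_card hsub).trans ?_
    rw [card_product, card_product, Int.card_Icc, card_univ, Fintype.card_bool]
    have : (2 * (m : ℤ) + 1 - -(2 * m)).toNat = 4 * m + 1 := by omega
    rw [this]
    ring_nf
    exact le_refl _
  rw [h1, h2]
  refine (sq_sum_le_card_mul_sum_sq).trans ?_
  exact Nat.mul_le_mul_right _ h3

lemma PP_le {p q : List Pt} (h : Ends p q) {m : ℕ} (hm : 0 < m) (he : Even m) {n : ℕ}
    (hn : 2 * m + p.length + q.length + 1 = n) :
    (PP p m).card ≤ ((m + p.length + 1) * (m + q.length + 1)) * (Cl n).card := by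
  have hM : Mirrored hexL := mirrored_hex
  have hcard : (Cl n ×ˢ (range (m + p.length + 1) ×ˢ range (m + q.length + 1))).card =
      ((m + p.length + 1) * (m + q.length + 1)) * (Cl n).card := by
    rw [card_product, card_product, card_range, card_range]; ring
  rw [← hcard]
  have hdat : ∀ x ∈ PP p m, (x.1.length = m ∧ TW hexL.S false x.1 ∧ BW x.1) ∧
      (x.2.length = m ∧ TW hexL.S false x.2 ∧ BW x.2) ∧ x.1.sum = x.2.sum ∧
      (tm (x.1 ++ p)).bodd = (tm (x.2 ++ q)).bodd := by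
    intro x hx
    rw [PP, mem_filter, mem_product, mem_Bs hM, mem_Bs hM] at hx
    obtain ⟨⟨h1, h2⟩, h3⟩ := hx
    unfold key at h3
    rw [Prod.mk.injEq] at h3
    refine ⟨h1, h2, h3.1, ?_⟩
    rw [h3.2, tm_ends h h2.2.2]
  refine card_le_card_of_injOn (fun x => (cn (x.1 ++ p) (x.2 ++ q), (tm (x.1 ++ p), tm (x.2 ++ q)))) ?_ ?_
  · intro x hx
    obtain ⟨⟨l1, t1, b1⟩, ⟨l2, t2, b2⟩, hs, ht⟩ := hdat x hx
    rw [mem_coe, mem_product, mem_product]
    have e1 : Even x.1.length := by rw [l1]; exact he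
    have e2 : Even x.2.length := by rw [l2]; exact he
    have c1 := bw_append b1 h.hp (by omega)
    have c2 := bw_append b2 h.hq (by omega)
    have c3 : (x.1 ++ p).sum = (x.2 ++ q).sum := by
      rw [List.sum_append, List.sum_append, hs, h.sum]
    have c4 : 0 < (x.1 ++ p).sum.2 := by
      have := (c1.2 (x.1 ++ p).length (by rw [List.length_append]; omega) le_rfl).1
      rwa [ps_length] at this
    refine ⟨cn_mem c1 c2 (tw_append_even t1 h.tp e1) (tw_append_even t2 h.tq e2) ?_ ?_ c3 c4 ht ?_, ?_, ?_⟩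
    · rw [List.length_append]
      exact e1.add h.ep
    · rw [List.length_append]
      exact e2.add h.eq
    · rw [List.length_append, List.length_append, l1, l2]
      omega
    · have := (tm_spec (x.1 ++ p)).1
      rw [List.length_append, l1] at this
      have h9 : tm (x.1 ++ p) < m + p.length + 1 := by omega
      exact mem_range.2 h9
    · have := (tm_spec (x.2 ++ q)).1
      rw [List.length_append, l2] at this
      have h9 : tm (x.2 ++ q) < m + q.length + 1 := by omega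
      exact mem_range.2 h9
  · intro x hx y hy heq
    obtain ⟨⟨l1, -, -⟩, ⟨l2, -, -⟩, -, -⟩ := hdat x hx
    obtain ⟨⟨k1, -, -⟩, ⟨k2, -, -⟩, -, -⟩ := hdat y hy
    simp only [Prod.mk.injEq] at heq
    obtain ⟨h1, h2, h3⟩ := heq
    have := cn_inj (by rw [List.length_append, List.length_append, l1, k1])
      (by rw [List.length_append, List.length_append, l2, k2]) h2 h3 h1
    exact Prod.ext (List.append_cancel_right this.1) (List.append_cancel_right this.2)

/-- every odd number of steps: closed walks from bridges -/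
theorem b_sq_le {n : ℕ} (hn : 15 ≤ n) (ho : ¬ Even n) : ∃ m c : ℕ, 0 < m ∧ (c = 1 ∨ c = 11) ∧ n = 2 * m + c ∧
    ((sysL hexL).b m) ^ 2 ≤ (2 * (4 * m + 1) ^ 2 * ((m + 7) * (m + 7))) * (Cl n).card := by
  have hmono : ∀ m a b : ℕ, a ≤ 6 → b ≤ 6 → (m + a + 1) * (m + b + 1) ≤ (m + 7) * (m + 7) := by
    intro m a b ha hb
    exact Nat.mul_le_mul (by omega) (by omega)
  rw [Nat.even_iff] at ho
  rcases Nat.lt_or_ge (n % 4) 2 with h | h
  · refine ⟨(n - 1) / 2, 1, by omega, Or.inl rfl, by omega, ?_⟩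
    obtain ⟨m, hm⟩ : ∃ m, m = (n - 1) / 2 := ⟨_, rfl⟩
    rw [← hm]
    have h1 := sq_le_PP [] m
    have h2 := PP_le ends_nil (m := m) (n := n) (by omega) (by rw [Nat.even_iff]; omega)
      (by simp only [List.length_nil]; omega)
    simp only [List.length_nil] at h2
    calc ((sysL hexL).b m) ^ 2 ≤ (2 * (4 * m + 1) ^ 2) * (PP [] m).card := h1
      _ ≤ (2 * (4 * m + 1) ^ 2) * (((m + 0 + 1) * (m + 0 + 1)) * (Cl n).card) := Nat.mul_le_mul_left _ h2
      _ ≤ (2 * (4 * m + 1) ^ 2) * (((m + 7) * (m + 7)) * (Cl n).card) :=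
        Nat.mul_le_mul_left _ (Nat.mul_le_mul_right _ (hmono m 0 0 (by omega) (by omega)))
      _ = _ := by ring
  · refine ⟨(n - 11) / 2, 11, by omega, Or.inr rfl, by omega, ?_⟩
    obtain ⟨m, hm⟩ : ∃ m, m = (n - 11) / 2 := ⟨_, rfl⟩
    rw [← hm]
    have h1 := sq_le_PP sA m
    have h2 := PP_le ends_AB (m := m) (n := n) (by omega) (by rw [Nat.even_iff]; omega)
      (by rw [lenA, lenB]; omega)
    rw [lenA, lenB] at h2
    calc ((sysL hexL).b m) ^ 2 ≤ (2 * (4 * m + 1) ^ 2) * (PP sA m).card := h1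
      _ ≤ (2 * (4 * m + 1) ^ 2) * (((m + 4 + 1) * (m + 6 + 1)) * (Cl n).card) := Nat.mul_le_mul_left _ h2
      _ ≤ (2 * (4 * m + 1) ^ 2) * (((m + 7) * (m + 7)) * (Cl n).card) :=
        Nat.mul_le_mul_left _ (Nat.mul_le_mul_right _ (hmono m 4 6 (by omega) (by omega)))
      _ = _ := by ring

lemma hup : ∀ b, ∃ u ∈ hexL.S b, u.2 = 1 := by
  intro b
  cases b
  · exact ⟨(-1, 1), by simp [hexL], rfl⟩
  · exact ⟨(1, 1), by simp [hexL], rfl⟩

/-- the analysis -/
theorem analysis {a b r : ℕ → ℕ} {K : ℕ} (hmul : ∀ m n, a (m + n) ≤ a m * a n) (h1 : a 1 ≤ K) (h11 : a 11 ≤ K)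
    (hab : ∀ δ : ℝ, 0 < δ → ∀ᶠ n : ℕ in atTop, (a n : ℝ) ≤ Real.exp ((n : ℝ) ^ δ) * b n)
    (hb : ∀ n : ℕ, 15 ≤ n → ¬ Even n → ∃ m c : ℕ, 0 < m ∧ (c = 1 ∨ c = 11) ∧ n = 2 * m + c ∧
      b m ^ 2 ≤ (2 * (4 * m + 1) ^ 2 * ((m + 7) * (m + 7))) * r n) (ε : ℝ) (hε : 0 < ε) :
    ∀ᶠ n : ℕ in atTop, ¬ Even n → (a n : ℝ) ≤ Real.exp ((n : ℝ) ^ ε) * r n := by
  obtain ⟨δ, hδ⟩ : ∃ δ : ℝ, δ = ε / 2 := ⟨_, rfl⟩
  have hδ0 : 0 < δ := by rw [hδ]; positivity
  obtain ⟨m0, hm0⟩ := Filter.eventually_atTop.1 (hab δ hδ0)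
  have ev1 : ∀ᶠ n : ℕ in atTop, Real.log (2 * ((n : ℝ) + 12) ^ 4 * (4 ^ 2)) ≤ (n : ℝ) ^ δ := by
    have h1 : ∀ᶠ x : ℝ in atTop, Real.log (2 * (x + 12) ^ 4 * (4 ^ 2)) ≤ x ^ δ := by
      have hlog := (isLittleO_log_rpow_atTop hδ0).bound (c := 1 / 8) (by norm_num)
      have hbig : ∀ᶠ x : ℝ in atTop, 2 * (Real.log 2 + 4 * Real.log 13 + 2 * Real.log 4) ≤ x ^ δ :=
        (tendsto_rpow_atTop hδ0).eventually_ge_atTop _
      filter_upwards [hlog, hbig, eventually_ge_atTop (1 : ℝ)] with x h2 h3 h4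
      have hx0 : 0 < x := by linarith
      rw [Real.norm_of_nonneg (Real.log_nonneg h4), Real.norm_of_nonneg (by positivity)] at h2
      have h5 : Real.log (2 * (x + 12) ^ 4 * (4 ^ 2)) ≤ Real.log (2 * (13 * x) ^ 4 * (4 ^ 2)) := by
        apply Real.log_le_log (by positivity)
        gcongr
        linarith
      have h6 : Real.log (2 * (13 * x) ^ 4 * (4 ^ 2)) = Real.log 2 + 4 * (Real.log 13 + Real.log x) + 2 * Real.log 4 := by
        rw [Real.log_mul (by positivity) (by positivity), Real.log_mul (by positivity) (by positivity), Real.log_pow,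
          Real.log_pow, Real.log_mul (by norm_num) hx0.ne']
        push_cast
        ring
      rw [h6] at h5
      linarith
    exact tendsto_natCast_atTop_atTop.eventually h1
  have htop : Tendsto (fun n : ℕ => ((n : ℕ) : ℝ) ^ δ) atTop atTop :=
    (tendsto_rpow_atTop hδ0).comp tendsto_natCast_atTop_atTop
  have ev2 := htop.eventually_ge_atTop (Real.log ((K : ℝ) + 1))
  have ev3 := htop.eventually_ge_atTop 4
  filter_upwards [ev1, ev2, ev3, eventually_ge_atTop (2 * m0 + 15)] with n h1' h2 h3 hn ho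
  obtain ⟨m, c, hm, hc, hnm, hbm⟩ := hb n (by omega) ho
  obtain ⟨A, hA⟩ : ∃ A : ℝ, A = (K : ℝ) + 1 := ⟨_, rfl⟩
  have hA0 : 0 < A := by rw [hA]; positivity
  have hc1 : (a c : ℝ) ≤ A := by
    have h4 : (a c : ℝ) ≤ K := by
      rcases hc with rfl | rfl
      · exact_mod_cast h1
      · exact_mod_cast h11
    rw [hA]
    linarith
  obtain ⟨y, hy⟩ : ∃ y : ℝ, y = (n : ℝ) ^ δ := ⟨_, rfl⟩
  have hn0 : (0 : ℝ) < n := by exact_mod_cast (by omega : 0 < n)
  rw [← hy] at h1' h2 h3
  have hmn : (m : ℝ) ≤ n := by exact_mod_cast (by omega : m ≤ n)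
  have d1 : (a m : ℝ) ≤ Real.exp y * b m := by
    refine (hm0 m (by rcases hc with rfl | rfl <;> omega)).trans ?_
    refine mul_le_mul_of_nonneg_right (Real.exp_le_exp.2 ?_) (Nat.cast_nonneg _)
    rw [hy]
    exact Real.rpow_le_rpow (Nat.cast_nonneg _) hmn hδ0.le
  have d2 : (a n : ℝ) ≤ A * (a m : ℝ) ^ 2 := by
    have g1 : a n ≤ a (m + m) * a c := by
      have := hmul (m + m) c
      rw [show m + m + c = n by omega] at this
      exact this
    have g2 : a (m + m) ≤ a m * a m := hmul m m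
    have g3 : a n ≤ (a m * a m) * a c := g1.trans (Nat.mul_le_mul_right _ g2)
    have g4 : (a n : ℝ) ≤ (a m * a m) * a c := by exact_mod_cast g3
    refine g4.trans ?_
    rw [sq, mul_comm A]
    exact mul_le_mul_of_nonneg_left hc1 (by positivity)
  have d3 : (b m : ℝ) ^ 2 ≤ Real.exp y * r n := by
    have g1 : (b m : ℝ) ^ 2 ≤ (2 * (4 * m + 1) ^ 2 * ((m + 7) * (m + 7))) * r n := by
      exact_mod_cast hbm
    refine g1.trans (mul_le_mul_of_nonneg_right ?_ (Nat.cast_nonneg _))
    have hp : (0 : ℝ) < 2 * ((n : ℝ) + 12) ^ 4 * (4 ^ 2) := by positivity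
    calc (2 * (4 * (m : ℝ) + 1) ^ 2 * (((m : ℝ) + 7) * (m + 7))) ≤ 2 * (4 * ((n : ℝ) + 12)) ^ 2 * (((n : ℝ) + 12) * (n + 12)) := by
          gcongr <;> linarith
      _ = 2 * ((n : ℝ) + 12) ^ 4 * (4 ^ 2) := by ring
      _ ≤ Real.exp y := by
          rw [← Real.log_le_iff_le_exp hp]
          exact h1'
  have hAy : A ≤ Real.exp y := by
    rw [← Real.log_le_iff_le_exp hA0, hA]
    exact h2
  have hyy : 4 * y ≤ (n : ℝ) ^ ε := by
    have : (n : ℝ) ^ ε = y * y := by
      rw [hy, ← Real.rpow_add hn0]; congr 1; rw [hδ]; ring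
    rw [this]
    exact mul_le_mul_of_nonneg_right h3 (by rw [hy]; positivity)
  calc (a n : ℝ) ≤ A * (a m : ℝ) ^ 2 := d2
    _ ≤ Real.exp y * (Real.exp y * b m) ^ 2 := by gcongr
    _ = Real.exp (3 * y) * (b m : ℝ) ^ 2 := by
        rw [mul_pow, ← Real.exp_nat_mul, ← mul_assoc, ← Real.exp_add]
        congr 2
        push_cast
        ring
    _ ≤ Real.exp (3 * y) * (Real.exp y * r n) := mul_le_mul_of_nonneg_left d3 (Real.exp_pos _).le
    _ = Real.exp (4 * y) * r n := by
        rw [← mul_assoc, ← Real.exp_add]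
        congr 2
        ring
    _ ≤ _ := mul_le_mul_of_nonneg_right (Real.exp_le_exp.2 hyy) (Nat.cast_nonneg _)

/-- **The closed walks are not exponentially rare: for every odd number of steps.** -/
theorem closed_lower (ε : ℝ) (hε : 0 < ε) :
    ∀ᶠ n : ℕ in atTop, ¬ Even n → ((WS hexL n).card : ℝ) ≤ Real.exp ((n : ℝ) ^ ε) * (Cl n).card :=
  analysis (a := fun n => (WS hexL n).card) (b := fun n => (sysL hexL).b n) (r := fun n => (Cl n).card)
    (K := (WS hexL 1).card + (WS hexL 11).card) (fun m n => WS_mul mirrored_hex m n) (Nat.le_add_right _ _)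
    (Nat.le_add_left _ _) (fun δ hδ => walk_le_bridge_L mirrored_hex hup δ hδ) (fun _ h1 h2 => b_sq_le h1 h2) ε hε

end PGX
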