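import Pool.Agent.PGX.Count
import Pool.Agent.MS.Stmt

/-!
PGX: the closed walks in the encoding by directions; there are closed walks for every odd number of steps `≥ 9`.
-/

set_option autoImplicit false

open Finset Filter

namespace PGX

open SawNu Pool.Agent.SawBr38 Pool.Agent.Lib.SAW.HW

/-- the sublattice of the end point -/
lemma tw_mod {l : List Pt} : ∀ {b : Bool}, TW hexL.S b l →
    l.sum.1 % 3 = if (par l) then (if b then 1 else 2) else 0 := by
  induction l with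
  | nil => intro b _; simp [par]
  | cons a l ih =>
    intro b h
    obtain ⟨h1, h2⟩ := h
    have h3 := ih h2
    have h4 : par (a :: l) = !(par l) := by
      unfold par
      rw [List.length_cons, Nat.bodd_succ]
    rw [h4, List.sum_cons, Prod.fst_add]
    have h5 : a.1 % 3 = if b then 1 else 2 := by
      cases b
      · simp only [hexL, cond_false, Finset.mem_insert, Finset.mem_singleton] at h1
        rcases h1 with rfl | rfl | rfl <;> decide
      · simp only [hexL, cond_true, Finset.mem_insert, Finset.mem_singleton] at h1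
        rcases h1 with rfl | rfl | rfl <;> decide
    cases b <;> cases hp : par l <;> rw [hp] at h3 <;> simp only [Bool.not_true, Bool.not_false, if_true, if_false,
      Bool.false_eq_true] at h3 h5 ⊢ <;> omega

lemma norm_phiTri_sq (p : Pt) : ‖phiTri p‖ ^ 2 = ((p.1 : ℝ) ^ 2 + 3 * (p.2 : ℝ) ^ 2) / 4 := by
  rw [← Complex.normSq_eq_norm_sq, Complex.normSq_apply]
  have h3 : Real.sqrt 3 * Real.sqrt 3 = 3 := Real.mul_self_sqrt (by norm_num)
  show (p.1 : ℝ) / 2 * ((p.1 : ℝ) / 2) + (p.2 : ℝ) * (Real.sqrt 3 / 2) * ((p.2 : ℝ) * (Real.sqrt 3 / 2)) = _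
  linear_combination ((p.2 : ℝ) ^ 2 / 4) * h3

lemma norm_one_iff (p : Pt) : ‖phiTri p‖ = 1 ↔ p.1 ^ 2 + 3 * p.2 ^ 2 = 4 := by
  have h := norm_phiTri_sq p
  constructor
  · intro h1
    rw [h1] at h
    have : ((p.1 ^ 2 + 3 * p.2 ^ 2 : ℤ) : ℝ) = (4 : ℤ) := by
      push_cast
      linarith
    exact_mod_cast this
  · intro h1
    have h2 : ((p.1 ^ 2 + 3 * p.2 ^ 2 : ℤ) : ℝ) = (4 : ℤ) := by rw [h1]
    push_cast at h2
    rw [h2] at h
    have h3 : ‖phiTri p‖ ^ 2 = 1 := by rw [h]; norm_num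
    have h4 := norm_nonneg (phiTri p)
    nlinarith

lemma odd_bodd {n : ℕ} (ho : ¬ Even n) : n.bodd = true := by
  rw [Nat.even_iff] at ho
  have h := Nat.mod_two_of_bodd n
  cases hb : n.bodd
  · rw [hb] at h
    simp at h
    omega
  · rfl

lemma sum_mem_iff {l : List Pt} (h : TW hexL.S false l) (ho : ¬ Even l.length) :
    l.sum ∈ hexL.S false ↔ ‖phiTri l.sum‖ = 1 := by
  have h1 := tw_mod h
  have h2 : par l = true := odd_bodd ho
  rw [h2] at h1
  simp only [if_true, Bool.false_eq_true, if_false] at h1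
  rw [norm_one_iff]
  obtain ⟨p, hp⟩ : ∃ p : Pt, p = l.sum := ⟨_, rfl⟩
  rw [← hp] at h1 ⊢
  obtain ⟨x, y⟩ := p
  simp only at h1
  simp only [hexL, cond_false, Finset.mem_insert, Finset.mem_singleton, Prod.mk.injEq]
  constructor
  · rintro (⟨rfl, rfl⟩ | ⟨rfl, rfl⟩ | ⟨rfl, rfl⟩) <;> norm_num
  · intro h3
    have hx : -2 ≤ x ∧ x ≤ 2 := by constructor <;> nlinarith
    have hy : -1 ≤ y ∧ y ≤ 1 := by constructor <;> nlinarith
    obtain ⟨hx1, hx2⟩ := hx
    obtain ⟨hy1, hy2⟩ := hy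
    interval_cases x <;> interval_cases y <;> simp_all

/-- the closed walks in the encoding by directions -/
noncomputable def Pol (f : ℕ → Fin 3 → ℂ) (n : ℕ) : Finset (Fin n → Fin 3) :=
  (MS.SW f n).filter (fun s => ‖MS.pw f s n‖ = 1)

lemma sac_iff {f : ℕ → Fin 3 → ℂ} {n : ℕ} {s : Fin n → Fin 3} : s ∈ MS.SW f n ↔ SAC f n s := by
  rw [MS.mem_SW]
  unfold SAC MS.pw
  constructor
  · intro h j k he
    exact Fin.ext (h j k (by omega) (by omega) he)
  · intro h j k hj hk he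
    have := h ⟨j, by omega⟩ ⟨k, by omega⟩ he
    simpa using this

lemma hf_enc {f : ℕ → Fin 3 → ℂ} (hf : MS.Hex f) : ∀ i a, f i a = encHex.φ (encHex.st i.bodd a) :=
  fun i a => by rw [hf i a, hex_enc]

lemma mem_WS_word {f : ℕ → Fin 3 → ℂ} (hf : MS.Hex f) {n : ℕ} (s : Fin n → Fin 3) :
    encHex.word s ∈ WS hexL n ↔ s ∈ MS.SW f n := by
  rw [mem_WS, sac_iff, encHex.word_sa s (hf_enc hf)]
  exact ⟨fun h => h.2.2, fun h => ⟨encHex.word_length s, encHex.word_tw s, h⟩⟩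

lemma word_end {f : ℕ → Fin 3 → ℂ} (hf : MS.Hex f) {n : ℕ} (s : Fin n → Fin 3) :
    phiTri (encHex.word s).sum = MS.pw f s n := by
  have h := encHex.word_ps s (hf_enc hf) n
  have h2 := ps_length (encHex.word s)
  rw [encHex.word_length] at h2
  rw [h2] at h
  exact h

theorem card_SW_eq {f : ℕ → Fin 3 → ℂ} (hf : MS.Hex f) (n : ℕ) : (MS.SW f n).card = (WS hexL n).card := by
  refine card_bij (fun s _ => encHex.word s) ?_ ?_ ?_
  · exact fun s hs => (mem_WS_word hf s).2 hs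
  · exact fun s _ s' _ h => encHex.word_inj h
  · intro l hl
    have hl' := hl
    rw [mem_WS] at hl'
    obtain ⟨s, hs⟩ := encHex.word_surj hl'.1 hl'.2.1
    exact ⟨s, (mem_WS_word hf s).1 (by rw [hs]; exact hl), hs⟩

theorem card_Pol_eq {f : ℕ → Fin 3 → ℂ} (hf : MS.Hex f) {n : ℕ} (ho : ¬ Even n) : (Pol f n).card = (Cl n).card := by
  have key : ∀ s : Fin n → Fin 3, encHex.word s ∈ Cl n ↔ s ∈ Pol f n := by
    intro s
    rw [mem_Cl, Pol, mem_filter, mem_WS_word hf, sum_mem_iff (encHex.word_tw s) (by rw [encHex.word_length]; exact ho),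
      word_end hf]
  refine card_bij (fun s _ => encHex.word s) ?_ ?_ ?_
  · exact fun s hs => (key s).2 hs
  · exact fun s _ s' _ h => encHex.word_inj h
  · intro l hl
    have hl' := (mem_Cl.1 hl).1
    rw [mem_WS] at hl'
    obtain ⟨s, hs⟩ := encHex.word_surj hl'.1 hl'.2.1
    exact ⟨s, (key s).1 (by rw [hs]; exact hl), hs⟩

/-- a walk with distinct sites, decidable form -/
lemma sa_of_dec {l : List Pt} (h : ∀ j ∈ range (l.length + 1), ∀ i ∈ range j, ps l i ≠ ps l j) : SA l :=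
  fun i j hij hj => h j (mem_range.2 (by omega)) i (mem_range.2 hij)

lemma cl_nine : (Cl 9).Nonempty := by
  refine ⟨[(2, 0), (1, -1), (2, 0), (1, -1), (-1, -1), (-2, 0), (-1, 1), (-2, 0), (-1, 1)], ?_⟩
  rw [mem_Cl, mem_WS]
  exact ⟨⟨rfl, by simp [TW, hexL], sa_of_dec (by decide)⟩, by decide⟩

lemma cl_eleven : (Cl 11).Nonempty := by
  refine ⟨[(2, 0), (1, -1), (2, 0), (1, -1), (-1, -1), (-2, 0), (-1, -1), (-2, 0), (-1, 1), (1, 1), (-1, 1)], ?_⟩
  rw [mem_Cl, mem_WS]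
  exact ⟨⟨rfl, by simp [TW, hexL], sa_of_dec (by decide)⟩, by decide⟩

lemma cl_thirteen : (Cl 13).Nonempty := by
  refine ⟨[(2, 0), (1, -1), (2, 0), (1, -1), (2, 0), (1, -1), (-1, -1), (-2, 0), (-1, 1), (-2, 0), (-1, 1), (-2, 0),
    (-1, 1)], ?_⟩
  rw [mem_Cl, mem_WS]
  exact ⟨⟨rfl, by simp [TW, hexL], sa_of_dec (by decide)⟩, by decide⟩

lemma b_pos (m : ℕ) : 0 < (sysL hexL).b m := by
  obtain ⟨h1, h2, h3⟩ := hexRot.upw_spec m false
  have hmem : upw hexRot.u m false ∈ Bs hexL m := by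
    rw [mem_Bs mirrored_hex]
    refine ⟨h2, h1, ?_, ?_⟩
    · intro i j hij hj h
      rw [h2] at hj
      have a := h3 i (by omega)
      have b := h3 j hj
      rw [h, b] at a
      omega
    · intro i hi1 hi2
      rw [h2] at hi2
      rw [h2, h3 i hi2, h3 m le_rfl]
      exact ⟨by exact_mod_cast hi1, by exact_mod_cast hi2⟩
  rw [← card_image_brSet]
  exact card_pos.2 ⟨_, hmem⟩

/-- closed walks exist for every odd number of steps `≥ 9` -/
theorem Cl_pos {n : ℕ} (hn : 9 ≤ n) (ho : ¬ Even n) : 0 < (Cl n).card := by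
  rcases Nat.lt_or_ge n 15 with h | h
  · rw [Nat.even_iff] at ho
    have : n = 9 ∨ n = 11 ∨ n = 13 := by omega
    rcases this with rfl | rfl | rfl
    · exact card_pos.2 cl_nine
    · exact card_pos.2 cl_eleven
    · exact card_pos.2 cl_thirteen
  · obtain ⟨m, c, -, -, -, h2⟩ := b_sq_le h ho
    have h3 : 0 < ((sysL hexL).b m) ^ 2 := pow_pos (b_pos m) 2
    exact Nat.pos_of_mul_pos_left (h3.trans_le h2)

/-- **Closed walks at every odd number of steps `≥ 9`, against all the self-avoiding walks.** -/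
theorem pol_lower (ε : ℝ) (hε : 0 < ε) : ∃ C : ℝ, 0 < C ∧ ∀ f : ℕ → Fin 3 → ℂ, MS.Hex f → ∀ n : ℕ, 9 ≤ n → ¬ Even n →
    ((MS.SW f n).card : ℝ) ≤ C * Real.exp ((n : ℝ) ^ ε) * (Pol f n).card := by
  obtain ⟨n0, h0⟩ := eventually_atTop.1 (closed_lower ε hε)
  obtain ⟨C, hC⟩ : ∃ C : ℝ, C = 1 + ∑ k ∈ range n0, ((WS hexL k).card : ℝ) := ⟨_, rfl⟩
  have hs0 : ∀ k ∈ range n0, (0 : ℝ) ≤ ((WS hexL k).card : ℝ) := fun _ _ => Nat.cast_nonneg _
  have hC1 : 1 ≤ C := by
    rw [hC]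
    have := Finset.sum_nonneg hs0
    linarith
  refine ⟨C, by linarith, fun f hf n hn ho => ?_⟩
  rw [card_SW_eq hf, card_Pol_eq hf ho]
  have hx : (1 : ℝ) ≤ Real.exp ((n : ℝ) ^ ε) := Real.one_le_exp (Real.rpow_nonneg (Nat.cast_nonneg _) _)
  have hp : (1 : ℝ) ≤ (Cl n).card := by exact_mod_cast Cl_pos hn ho
  rcases Nat.lt_or_ge n n0 with h | h
  · have h1 : ((WS hexL n).card : ℝ) ≤ C := by
      have := Finset.single_le_sum hs0 (mem_range.2 h)
      rw [hC]
      linarith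
    have h2 : 1 ≤ Real.exp ((n : ℝ) ^ ε) * (Cl n).card := one_le_mul_of_one_le_of_one_le hx hp
    calc ((WS hexL n).card : ℝ) ≤ C * 1 := by linarith
      _ ≤ C * (Real.exp ((n : ℝ) ^ ε) * (Cl n).card) := mul_le_mul_of_nonneg_left h2 (by linarith)
      _ = _ := by ring
  · refine (h0 n h ho).trans ?_
    rw [mul_assoc]
    exact le_mul_of_one_le_left (by positivity) hC1

end PGX
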