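import Pool.Agent.SawBr38.Polygon
import Pool.Agent.XI72.A

/-!
PGX: closed walks of the hexagonal lattice from pairs of bridges with the same end point (cyclic shifts of both bridges at
their extreme vertices on the same side of the chord, the second one turned by half a turn).
-/

set_option autoImplicit false

open Finset

namespace PGX

open SawNu Pool.Agent.SawBr38

/-- cyclic shift -/
def rot (t : ℕ) (w : List Pt) : List Pt := w.drop t ++ w.take t

lemma rot_length (t : ℕ) (w : List Pt) : (rot t w).length = w.length := length_rot w t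

lemma rot_sum (t : ℕ) (w : List Pt) : (rot t w).sum = w.sum := sum_rot w t

/-- `t` is a time at which the walk is at its greatest signed distance from the chord -/
def MaxT (w : List Pt) (t : ℕ) : Prop :=
  t ≤ w.length ∧ ∀ i ≤ w.length, phi w.sum (ps w i) ≤ phi w.sum (ps w t)

/-- the first such time -/
noncomputable def tm (w : List Pt) : ℕ := sInf {t | MaxT w t}

lemma exists_MaxT (w : List Pt) : ∃ t, MaxT w t := by
  obtain ⟨t, ht, hmax⟩ := Finset.exists_max_image (Finset.range (w.length + 1))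
    (fun i => phi w.sum (ps w i)) ⟨0, by simp⟩
  refine ⟨t, by simpa [Nat.lt_succ_iff] using ht, fun i hi => ?_⟩
  exact hmax i (by simpa [Nat.lt_succ_iff] using hi)

lemma tm_spec (w : List Pt) : MaxT w (tm w) := Nat.sInf_mem (exists_MaxT w)

lemma tm_le {w : List Pt} {t : ℕ} (h : MaxT w t) : tm w ≤ t := Nat.sInf_le h

/-- the first extreme time does not see an end piece that stays below the earlier extreme -/
lemma tm_append {w s : List Pt} (hs : ∀ i, i ≤ s.length →
    phi (w ++ s).sum (w.sum + ps s i) ≤ max 0 (phi (w ++ s).sum w.sum)) :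
    tm (w ++ s) = sInf {t | t ≤ w.length ∧ ∀ i ≤ w.length, phi (w ++ s).sum (ps w i) ≤ phi (w ++ s).sum (ps w t)} := by
  obtain ⟨z, hz⟩ : ∃ z, z = (w ++ s).sum := ⟨_, rfl⟩
  rw [← hz] at hs ⊢
  have hlo : ∀ {i}, i ≤ w.length → ps (w ++ s) i = ps w i := fun hi => ps_append_left hi
  have hhi : ∀ {i}, w.length ≤ i → i ≤ (w ++ s).length → phi z (ps (w ++ s) i) ≤ max 0 (phi z w.sum) := by
    intro i h1 h2
    rw [List.length_append] at h2
    obtain ⟨k, rfl⟩ : ∃ k, i = w.length + k := ⟨i - w.length, by omega⟩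
    rw [ps_append_right]
    exact hs k (by omega)
  have hkey : ∀ t, (t ≤ w.length ∧ ∀ i ≤ w.length, phi z (ps w i) ≤ phi z (ps w t)) → MaxT (w ++ s) t := by
    rintro t ⟨h1, h2⟩
    refine ⟨by rw [List.length_append]; omega, fun i hi => ?_⟩
    rw [← hz, hlo h1]
    rcases Nat.le_total i w.length with h | h
    · rw [hlo h]
      exact h2 i h
    · refine (hhi h hi).trans (max_le ?_ ?_)
      · have := h2 0 (Nat.zero_le _)
        rwa [ps_zero, phi_zero] at this
      · have := h2 w.length le_rfl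
        rwa [ps_length] at this
  have hconv : ∀ t, MaxT (w ++ s) t → t ≤ w.length →
      (t ≤ w.length ∧ ∀ i ≤ w.length, phi z (ps w i) ≤ phi z (ps w t)) := by
    rintro t ⟨h1, h2⟩ h3
    refine ⟨h3, fun i hi => ?_⟩
    have := h2 i (by rw [List.length_append]; omega)
    rwa [← hz, hlo hi, hlo h3] at this
  have hne : ({t | t ≤ w.length ∧ ∀ i ≤ w.length, phi z (ps w i) ≤ phi z (ps w t)} : Set ℕ).Nonempty := by
    obtain ⟨t, ht, hmax⟩ := Finset.exists_max_image (Finset.range (w.length + 1))
      (fun i => phi z (ps w i)) ⟨0, by simp⟩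
    refine ⟨t, by simpa [Nat.lt_succ_iff] using ht, fun i hi => ?_⟩
    exact hmax i (by simpa [Nat.lt_succ_iff] using hi)
  apply le_antisymm
  · exact tm_le (hkey _ (Nat.sInf_mem hne))
  · have h1 := hkey _ (Nat.sInf_mem hne)
    have h2 : tm (w ++ s) ≤ w.length := (tm_le h1).trans (Nat.sInf_mem hne).1
    exact Nat.sInf_le (hconv _ (tm_spec _) h2)

/-- the closing step -/
def ee (a : Bool) (z : Pt) : Pt := if a = false then (2, 0) else if 0 < z.2 + z.1 then (1, -1) else (1, 1)

lemma ee_mem (a : Bool) (z : Pt) : ee a z ∈ hexL.S a := by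
  unfold ee
  cases a
  · simp [hexL]
  · rw [if_neg (by decide)]
    split_ifs <;> simp [hexL]

lemma ee_phi {z : Pt} (hz : 0 < z.2) (a : Bool) : 0 < phi z (ee a z) := by
  unfold ee phi
  cases a
  · rw [if_pos rfl]
    simp only
    linarith
  · rw [if_neg (by decide)]
    split_ifs with h
    · simp only
      linarith
    · simp only
      linarith

lemma neg_S {b : Bool} {s : Pt} (h : s ∈ hexL.S b) : -s ∈ hexL.S (!b) := XI72.mem_S_neg h

open XI72 (ng ng_length ps_ng ng_ng)

lemma ng_sum (l : List Pt) : (ng l).sum = -l.sum := by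
  have h := ps_ng l l.length
  rw [ps_length] at h
  have h2 := ps_length (ng l)
  rw [ng_length] at h2
  rw [← h2, h]

lemma ng_inj {l l' : List Pt} (h : ng l = ng l') : l = l' := by
  rw [← ng_ng l, h, ng_ng]

lemma ng_tw {b : Bool} {l : List Pt} (h : TW hexL.S b l) : TW hexL.S (!b) (ng l) := by
  have h1 := TW_map (S := hexL.S) (g := fun p : Pt => -p) (f := true) (fun c s hs => by
    have := neg_S hs
    cases c <;> simpa using this) b l h
  have e : xor b true = !b := by cases b <;> rfl
  rw [e] at h1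
  exact h1

lemma ng_sa {l : List Pt} (h : SA l) : SA (ng l) := by
  intro i j hij hj
  rw [ng_length] at hj
  rw [ps_ng, ps_ng]
  exact fun he => h i j hij hj (neg_injective he)

/-- gluing of two walks on one side of the chord -/
theorem SA_glue2 {A C : List Pt} {e z : Pt} (hA : SA A) (hC : SA C) (hAs : A.sum = z)
    (h1 : ∀ i ≤ A.length, phi z (ps A i) ≤ 0)
    (h2 : ∀ i ≤ C.length, phi z (ps C i) ≤ 0) (he : 0 < phi z e) :
    SA (A ++ e :: ng C) := by
  have hpos : ∀ k, ps (A ++ e :: ng C) (A.length + (k + 1)) = z + (e - ps C k) := by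
    intro k
    rw [ps_append_right, hAs]
    have : ps (e :: ng C) (k + 1) = e + ps (ng C) k := by
      simp [ps, List.take_succ_cons]
    rw [this, ps_ng]
    abel
  intro i j hij hj heq
  rw [List.length_append, List.length_cons, ng_length] at hj
  rcases Nat.lt_or_ge A.length j with hjA | hjA
  · obtain ⟨k, rfl⟩ : ∃ k, j = A.length + (k + 1) := ⟨j - A.length - 1, by omega⟩
    rw [hpos] at heq
    rcases Nat.lt_or_ge A.length i with hiA | hiA
    · obtain ⟨k', rfl⟩ : ∃ k', i = A.length + (k' + 1) := ⟨i - A.length - 1, by omega⟩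
      rw [hpos] at heq
      exact hC k' k (by omega) (by omega) (sub_right_injective (add_left_cancel heq))
    · rw [ps_append_left hiA] at heq
      have h3 := h1 i hiA
      have h4 := h2 k (by omega)
      rw [heq, phi_add, phi_sub, phi_self] at h3
      omega
  · rw [ps_append_left hjA, ps_append_left (by omega)] at heq
    exact hA i j hij hjA heq

/-- the closed walk of a pair of bridges -/
noncomputable def cl (w1 w2 : List Pt) : List Pt :=
  rot (tm w1) w1 ++ ee (tm w1).bodd w1.sum :: ng (rot (tm w2) w2)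

lemma cl_length (w1 w2 : List Pt) : (cl w1 w2).length = w1.length + w2.length + 1 := by
  unfold cl
  rw [List.length_append, List.length_cons, ng_length, rot_length, rot_length]
  ring

lemma cl_sum {w1 w2 : List Pt} (h : w1.sum = w2.sum) : (cl w1 w2).sum = ee (tm w1).bodd w1.sum := by
  unfold cl
  rw [List.sum_append, List.sum_cons, ng_sum, rot_sum, rot_sum, h]
  abel

lemma rot_phi {w : List Pt} {t : ℕ} (ht : MaxT w t) {i : ℕ} (hi : i ≤ (rot t w).length) :
    phi w.sum (ps (rot t w) i) ≤ 0 := by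
  rw [rot_length] at hi
  obtain ⟨j, hj, hj2⟩ := ps_rot ht.1 hi
  have h2 := ht.2 j hj
  unfold rot
  rw [hj2]
  omega

lemma cl_sa {w1 w2 : List Pt} (h1 : BW w1) (h2 : BW w2) (hs : w1.sum = w2.sum) (hz : 0 < w1.sum.2) :
    SA (cl w1 w2) := by
  refine SA_glue2 (z := w1.sum) (sa_rot h1 _) (sa_rot h2 _) (rot_sum _ _) ?_ ?_ (ee_phi hz _)
  · exact fun i hi => rot_phi (tm_spec w1) hi
  · intro i hi
    rw [hs]
    exact rot_phi (tm_spec w2) hi

lemma rot_tw {w : List Pt} (hw : TW hexL.S false w) (he : Even w.length) {t : ℕ} (ht : t ≤ w.length) :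
    TW hexL.S t.bodd (rot t w) := by
  have h1 : w = w.take t ++ w.drop t := (List.take_append_drop t w).symm
  rw [h1, TW_append] at hw
  obtain ⟨h2, h3⟩ := hw
  have e1 : par (w.take t) = t.bodd := by
    unfold par
    rw [List.length_take, min_eq_left ht]
  rw [e1, Bool.false_xor] at h3
  unfold rot
  rw [TW_append]
  refine ⟨h3, ?_⟩
  have e2 : xor t.bodd (par (w.drop t)) = false := by
    unfold par
    rw [List.length_drop]
    have h4 : w.length.bodd = false := by
      obtain ⟨k, hk⟩ := he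
      rw [hk, Nat.bodd_add, Bool.xor_self]
    have h5 : (t + (w.length - t)).bodd = false := by rw [Nat.add_sub_cancel' ht, h4]
    rw [Nat.bodd_add] at h5
    exact h5
  rw [e2]
  exact h2

lemma cl_tw {w1 w2 : List Pt} (h1 : TW hexL.S false w1) (e1 : Even w1.length) (h2 : TW hexL.S false w2)
    (e2 : Even w2.length) (ht : (tm w1).bodd = (tm w2).bodd) : TW hexL.S (tm w1).bodd (cl w1 w2) := by
  unfold cl
  rw [TW_append]
  refine ⟨rot_tw h1 e1 (tm_spec w1).1, ?_⟩
  have e3 : xor (tm w1).bodd (par (rot (tm w1) w1)) = (tm w1).bodd := by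
    unfold par
    rw [rot_length]
    have h4 : w1.length.bodd = false := by
      obtain ⟨k, hk⟩ := e1
      rw [hk, Nat.bodd_add, Bool.xor_self]
    rw [h4, Bool.xor_false]
  rw [e3]
  refine ⟨ee_mem _ _, ?_⟩
  rw [ht]
  exact ng_tw (rot_tw h2 e2 (tm_spec w2).1)

/-- the closed walks with `n` steps (`n + 1` sites): the last site is a neighbour of the first one -/
noncomputable def Cl (n : ℕ) : Finset (List Pt) := by
  classical
  exact (WS hexL n).filter (fun l => l.sum ∈ hexL.S false)

lemma mem_Cl {n : ℕ} {l : List Pt} : l ∈ Cl n ↔ l ∈ WS hexL n ∧ l.sum ∈ hexL.S false := by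
  unfold Cl
  rw [mem_filter]

/-- normalised version -/
noncomputable def cn (w1 w2 : List Pt) : List Pt := if (tm w1).bodd then ng (cl w1 w2) else cl w1 w2

lemma cn_mem {w1 w2 : List Pt} {n : ℕ} (h1 : BW w1) (h2 : BW w2) (t1 : TW hexL.S false w1) (t2 : TW hexL.S false w2)
    (e1 : Even w1.length) (e2 : Even w2.length) (hs : w1.sum = w2.sum) (hz : 0 < w1.sum.2)
    (ht : (tm w1).bodd = (tm w2).bodd) (hn : w1.length + w2.length + 1 = n) : cn w1 w2 ∈ Cl n := by
  have a1 := cl_sa h1 h2 hs hz
  have a2 := cl_tw t1 e1 t2 e2 ht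
  have a3 := cl_sum hs
  have a4 := ee_mem (tm w1).bodd w1.sum
  rw [mem_Cl, mem_WS]
  unfold cn
  cases hb : (tm w1).bodd
  · rw [hb] at a2 a3 a4
    simp only [Bool.false_eq_true, if_false]
    exact ⟨⟨by rw [cl_length, hn], a2, a1⟩, by rw [a3]; exact a4⟩
  · rw [hb] at a2 a3 a4
    simp only [if_true]
    refine ⟨⟨by rw [ng_length, cl_length, hn], ?_, ng_sa a1⟩, ?_⟩
    · exact ng_tw a2
    · rw [ng_sum, a3]
      exact neg_S a4

lemma cn_inj {w1 w2 v1 v2 : List Pt} (l1 : w1.length = v1.length) (l2 : w2.length = v2.length)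
    (h1 : tm w1 = tm v1) (h2 : tm w2 = tm v2) (h : cn w1 w2 = cn v1 v2) : w1 = v1 ∧ w2 = v2 := by
  have h3 : cl w1 w2 = cl v1 v2 := by
    unfold cn at h
    rw [h1] at h
    split_ifs at h
    · exact ng_inj h
    · exact h
  unfold cl at h3
  have h4 := List.append_inj h3 (by rw [rot_length, rot_length, l1])
  have h5 := (List.cons.inj h4.2).2
  have h6 := ng_inj h5
  have h7 := h4.1
  rw [h1] at h7
  rw [h2] at h6
  exact ⟨rot_inj l1 h7, rot_inj l2 h6⟩

end PGX
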