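import Pool.Agent.PGX.Dict
import Pool.Agent.MS.Stmt

/-!
PGX: events of small probability and the radius of gyration for the closed walks.
-/

set_option autoImplicit false
open scoped Classical

open Finset Filter

namespace PGX

/-- transfer of a stretched exponentially small event -/
theorem transfer {c : ℝ} (hc : 0 < c) : ∃ c' : ℝ, 0 < c' ∧ c' ≤ c ∧ ∀ f : ℕ → Fin 3 → ℂ, MS.Hex f → ∀ n : ℕ, 9 ≤ n →
    ¬ Even n → ∀ (A : (Fin n → Fin 3) → Prop) (_dA : DecidablePred A),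
      (((MS.SW f n).filter A).card : ℝ) ≤ c⁻¹ * Real.exp (-(n : ℝ) ^ c) * ((MS.SW f n).card : ℝ) →
      (((Pol f n).filter A).card : ℝ) ≤ c'⁻¹ * Real.exp (-(n : ℝ) ^ c') * ((Pol f n).card : ℝ) := by
  obtain ⟨C, hC, h⟩ := pol_lower (c / 2) (by positivity)
  -- `- x ^ c + x ^ (c/2) ≤ K - x ^ (c/2)`
  have hK : ∀ x : ℝ, 0 ≤ x → -(x ^ c) + x ^ (c / 2) ≤ 1 - x ^ (c / 2) := by
    intro x hx
    have e : x ^ c = x ^ (c / 2) * x ^ (c / 2) := by
      rw [← Real.rpow_add_of_nonneg hx (by positivity) (by positivity)]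
      congr 1
      ring
    rw [e]
    nlinarith [sq_nonneg (x ^ (c / 2) - 1)]
  refine ⟨min (c / 2) ((c⁻¹ * C * Real.exp 1)⁻¹), by positivity, (min_le_left _ _).trans (by linarith), ?_⟩
  obtain ⟨c', hc'⟩ : ∃ c', c' = min (c / 2) ((c⁻¹ * C * Real.exp 1)⁻¹) := ⟨_, rfl⟩
  rw [← hc']
  have hc'0 : 0 < c' := by rw [hc']; positivity
  intro f hf n hn ho A _dA hA
  have hnR : (1 : ℝ) ≤ n := by exact_mod_cast (by omega : 1 ≤ n)
  have h1 := h f hf n hn ho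
  have hsub : (((Pol f n).filter A).card : ℝ) ≤ (((MS.SW f n).filter A).card : ℝ) := by
    refine Nat.cast_le.2 (card_le_card ?_)
    intro s hs
    rw [mem_filter] at hs ⊢
    exact ⟨(mem_filter.1 (show s ∈ (MS.SW f n).filter _ from hs.1)).1, hs.2⟩
  have e1 : c⁻¹ * C * Real.exp 1 ≤ c'⁻¹ := by
    have h2 : c' ≤ (c⁻¹ * C * Real.exp 1)⁻¹ := by rw [hc']; exact min_le_right _ _
    have h3 := inv_anti₀ hc'0 h2
    rwa [inv_inv] at h3
  have e2 : Real.exp (-(n : ℝ) ^ (c / 2)) ≤ Real.exp (-(n : ℝ) ^ c') := by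
    rw [Real.exp_le_exp, neg_le_neg_iff]
    exact Real.rpow_le_rpow_of_exponent_le hnR (by rw [hc']; exact min_le_left _ _)
  calc (((Pol f n).filter A).card : ℝ) ≤ c⁻¹ * Real.exp (-(n : ℝ) ^ c) * ((MS.SW f n).card : ℝ) := hsub.trans hA
    _ ≤ c⁻¹ * Real.exp (-(n : ℝ) ^ c) * (C * Real.exp ((n : ℝ) ^ (c / 2)) * (Pol f n).card) := by gcongr
    _ = (c⁻¹ * C) * Real.exp (-(n : ℝ) ^ c + (n : ℝ) ^ (c / 2)) * (Pol f n).card := by
      rw [Real.exp_add]; ring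
    _ ≤ (c⁻¹ * C) * Real.exp (1 - (n : ℝ) ^ (c / 2)) * (Pol f n).card := by
      gcongr
      exact hK _ (by positivity)
    _ = (c⁻¹ * C * Real.exp 1) * Real.exp (-(n : ℝ) ^ (c / 2)) * (Pol f n).card := by
      rw [sub_eq_add_neg, Real.exp_add]; ring
    _ ≤ _ := by gcongr

lemma card_Pol_pos {f : ℕ → Fin 3 → ℂ} (hf : MS.Hex f) {n : ℕ} (hn : 9 ≤ n) (ho : ¬ Even n) : 0 < (Pol f n).card := by
  rw [card_Pol_eq hf ho]
  exact Cl_pos hn ho

/-- the mean over the closed walks -/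
noncomputable def EvP (f : ℕ → Fin 3 → ℂ) (n : ℕ) (R : (Fin n → Fin 3) → ℝ) : ℝ :=
  (∑ s ∈ Pol f n, R s) / ((Pol f n).card : ℝ)

/-- bound of a mean from below by a bound outside a small set -/
theorem mean_lower {c : ℝ} (hc : 0 < c) : ∃ c' : ℝ, 0 < c' ∧ ∀ f : ℕ → Fin 3 → ℂ, MS.Hex f → ∀ n : ℕ, 9 ≤ n →
    ¬ Even n → ∀ (R : (Fin n → Fin 3) → ℝ) (y : ℝ), 0 ≤ y → (∀ s, 0 ≤ R s) → (∀ s, 1 / (2 * ((n : ℝ) + 1) ^ 2) ≤ R s) →
      y ≤ (n : ℝ) ^ 2 →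
      (((Pol f n).filter (fun s => ¬ c * y ≤ R s)).card : ℝ) ≤
        c⁻¹ * Real.exp (-(n : ℝ) ^ c) * ((Pol f n).card : ℝ) →
      c' * y ≤ EvP f n R := by
  have ht : Filter.Tendsto (fun n : ℕ => c⁻¹ * Real.exp (-(n : ℝ) ^ c)) Filter.atTop
      (nhds (c⁻¹ * 0)) := by
    refine Filter.Tendsto.const_mul _ ?_
    refine Real.tendsto_exp_atBot.comp ?_
    refine Filter.tendsto_neg_atTop_atBot.comp ?_
    exact (tendsto_rpow_atTop hc).comp tendsto_natCast_atTop_atTop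
  rw [mul_zero] at ht
  obtain ⟨N, hN⟩ := (ht.eventually (gt_mem_nhds (by norm_num : (0 : ℝ) < 1 / 2))).exists_forall_of_atTop
  obtain ⟨c', hc'⟩ : ∃ c', c' = min (c / 2) (1 / (2 * ((N : ℝ) + 1) ^ 4)) := ⟨_, rfl⟩
  have hc'0 : 0 < c' := by rw [hc']; positivity
  refine ⟨c', hc'0, fun f hf n hn ho R y hy hR hR2 hyn hb => ?_⟩
  have hpos : (0 : ℝ) < (Pol f n).card := by exact_mod_cast card_Pol_pos hf hn ho
  unfold EvP
  rw [le_div_iff₀ hpos]
  rcases lt_or_ge n N with h | h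
  · have hnN : (n : ℝ) + 1 ≤ (N : ℝ) + 1 := by
      have : (n : ℝ) ≤ N := by exact_mod_cast h.le
      linarith
    have h1 : c' * y ≤ 1 / (2 * ((n : ℝ) + 1) ^ 2) := by
      have e1 : c' ≤ 1 / (2 * ((N : ℝ) + 1) ^ 4) := by rw [hc']; exact min_le_right _ _
      have e2 : 1 / (2 * ((N : ℝ) + 1) ^ 4) ≤ 1 / (2 * ((n : ℝ) + 1) ^ 4) := by gcongr
      have e3 : y ≤ ((n : ℝ) + 1) ^ 2 := hyn.trans (by gcongr; linarith)
      calc c' * y ≤ 1 / (2 * ((n : ℝ) + 1) ^ 4) * ((n : ℝ) + 1) ^ 2 := mul_le_mul (e1.trans e2) e3 hy (by positivity)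
        _ = _ := by field_simp
    have h3 : ∑ _s ∈ Pol f n, c' * y ≤ ∑ s ∈ Pol f n, R s := sum_le_sum fun s _ => h1.trans (hR2 s)
    rw [sum_const, nsmul_eq_mul, mul_comm] at h3
    exact h3
  · have h3 : ∑ _s ∈ (Pol f n).filter (fun s => c * y ≤ R s), c * y ≤ ∑ s ∈ Pol f n, R s := by
      refine (sum_le_sum fun s hs => (mem_filter.1 hs).2).trans ?_
      exact sum_le_sum_of_subset_of_nonneg (filter_subset _ _) fun s _ _ => hR s
    rw [sum_const, nsmul_eq_mul] at h3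
    have h4 : (((Pol f n).filter (fun s => c * y ≤ R s)).card : ℝ) +
        (((Pol f n).filter (fun s => ¬ c * y ≤ R s)).card : ℝ) = ((Pol f n).card : ℝ) := by
      exact_mod_cast card_filter_add_card_filter_not _
    have h5 : c⁻¹ * Real.exp (-(n : ℝ) ^ c) ≤ 1 / 2 := (hN n h).le
    have h6 : (((Pol f n).filter (fun s => ¬ c * y ≤ R s)).card : ℝ) ≤ 1 / 2 * ((Pol f n).card : ℝ) :=
      hb.trans (mul_le_mul_of_nonneg_right h5 hpos.le)
    have h7 : 1 / 2 * ((Pol f n).card : ℝ) ≤ (((Pol f n).filter (fun s => c * y ≤ R s)).card : ℝ) := by linarith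
    have e1 : c' ≤ c / 2 := by rw [hc']; exact min_le_left _ _
    calc c' * y * (Pol f n).card ≤ c / 2 * y * (Pol f n).card := by gcongr
      _ = 1 / 2 * ((Pol f n).card : ℝ) * (c * y) := by ring
      _ ≤ _ := mul_le_mul_of_nonneg_right h7 (by positivity)
      _ ≤ _ := h3

end PGX
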